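import Pool.Agent.PSC.Defs

/-!
# PSC-Cau: an ultrafilter of automorphisms which is a left and right Cauchy filter converges
-/

set_option autoImplicit false

open Set Topology Filter
open scoped Manifold

namespace Pool.Agent.PSC

open Pool.Agent.ISY

section

variable {E X : Type} [NormedAddCommGroup E] [NormedSpace ℂ E] [FiniteDimensional ℂ E]
  [TopologicalSpace X] [T2Space X] [SecondCountableTopology X]
  [ChartedSpace E X] [IsManifold 𝓘(ℂ, E) (⊤ : WithTop ℕ∞) X]

/-- left and right Cauchy -/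
private def CauB (U : Filter (AutM E X)) : Prop :=
  Tendsto (fun q : AutM E X × AutM E X => q.2⁻¹ * q.1) (U ×ˢ U) (𝓝 1) ∧
    Tendsto (fun q : AutM E X × AutM E X => q.1 * q.2⁻¹) (U ×ˢ U) (𝓝 1)

private theorem cau_inv {U : Filter (AutM E X)} (h : CauB U) : CauB (U.map fun g => g⁻¹) := by
  have i1 := isTopologicalGroup_autM E X
  have h0 : (U.map fun g => g⁻¹) ×ˢ (U.map fun g => g⁻¹) =
      (U ×ˢ U).map (Prod.map (fun g : AutM E X => g⁻¹) fun g => g⁻¹) := Filter.prod_map_map_eq' _ _ _ _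
  constructor
  · rw [h0, tendsto_map'_iff]
    have h1 := h.2.inv
    rw [inv_one] at h1
    refine h1.congr fun q => ?_
    simp only [Function.comp, Prod.map, mul_inv_rev, inv_inv]
  · rw [h0, tendsto_map'_iff]
    have h1 := h.1.inv
    rw [inv_one] at h1
    refine h1.congr fun q => ?_
    simp only [Function.comp, Prod.map, mul_inv_rev, inv_inv]

private theorem cau_lm {U : Ultrafilter (AutM E X)} (h : CauB (U : Filter (AutM E X))) (x : X) :
    ∃ a, Lm (U : Filter (AutM E X)) x a := by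
  have i3 := continuousSMul_autM E X
  have : LocallyCompactSpace X := Manifold.locallyCompact_of_finiteDimensional 𝓘(ℂ, E)
  have hact : ∀ z : X, Tendsto (fun q : AutM E X × X => q.1 q.2) (𝓝 (1 : AutM E X) ×ˢ 𝓝 z) (𝓝 z) := by
    intro z
    exact le_nhds_iff.1 le_rfl z
  -- the pointwise limit
  obtain ⟨B, hBc, hB⟩ := exists_compact_mem_nhds x
  have h1 : ∀ᶠ g : AutM E X in 𝓝 1, g x ∈ B := by
    have h2 : Tendsto (fun g : AutM E X => g x) (𝓝 1) (𝓝 x) := (hact x).comp
      (tendsto_id.prodMk tendsto_const_nhds)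
    exact h2.eventually hB
  obtain ⟨S, hS, T, hT, hST⟩ := mem_prod_iff.1 (h.1.eventually h1)
  obtain ⟨g₀, hg₀⟩ := U.nonempty_of_mem hT
  have hc : IsCompact (g₀ '' B) := hBc.image g₀.continuous
  obtain ⟨a, -, hUa⟩ := isCompact_iff_ultrafilter_le_nhds.1 hc (U.map fun g => g x) (by
    rw [Ultrafilter.coe_map, le_principal_iff, mem_map]
    filter_upwards [hS] with g hg
    have h2 : (g₀⁻¹ * g) x ∈ B := hST (mk_mem_prod hg hg₀)
    refine ⟨(g₀⁻¹ * g) x, h2, ?_⟩
    rw [AutM.mul_apply, AutM.apply_inv_self])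
  rw [Ultrafilter.coe_map] at hUa
  have hat : Tendsto (fun g : AutM E X => g x) (U : Filter (AutM E X)) (𝓝 a) := hUa
  refine ⟨a, ?_⟩
  unfold Lm
  rw [tendsto_iff_forall_eventually_mem]
  intro O hO
  obtain ⟨N, hN, O', hO', hNO⟩ := mem_prod_iff.1 ((hact a).eventually hO)
  obtain ⟨S', hS', T', hT', hST'⟩ := mem_prod_iff.1 (h.2.eventually hN)
  obtain ⟨g', hg', hg'O⟩ := U.nonempty_of_mem
    (inter_mem hT' (hat.eventually (interior_mem_nhds.2 hO')))
  have h2 : g' ⁻¹' O' ∈ 𝓝 x := by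
    exact g'.continuous.continuousAt.preimage_mem_nhds (mem_interior_iff_mem_nhds.1 hg'O)
  refine mem_prod_iff.2 ⟨S', hS', _, h2, ?_⟩
  rintro ⟨g, y⟩ ⟨hg, hy⟩
  have h3 : g * g'⁻¹ ∈ N := hST' (mk_mem_prod hg hg')
  have h4 := hNO (mk_mem_prod h3 hy)
  have h5 : (g * g'⁻¹) (g' y) ∈ O := h4
  rwa [AutM.mul_apply, AutM.inv_apply_self] at h5

omit [FiniteDimensional ℂ E] [T2Space X] [SecondCountableTopology X]
  [IsManifold 𝓘(ℂ, E) (⊤ : WithTop ℕ∞) X] in
private theorem cau_cont [RegularSpace X] {U : Ultrafilter (AutM E X)} {a : X → X}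
    (h : ∀ x, Lm (U : Filter (AutM E X)) x (a x)) : Continuous a := by
  rw [continuous_iff_continuousAt]
  intro x
  rw [ContinuousAt, (closed_nhds_basis (a x)).tendsto_right_iff]
  rintro O ⟨hO, hOc⟩
  obtain ⟨S, hS, T, hT, hST⟩ := mem_prod_iff.1 ((h x).eventually hO)
  filter_upwards [hT] with y hy
  refine hOc.mem_of_tendsto (h y).tendsto ?_
  filter_upwards [hS] with g hg
  exact hST (mk_mem_prod hg hy)

/-- an ultrafilter of automorphisms which is a left and right Cauchy filter converges -/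
theorem converge {U : Ultrafilter (AutM E X)}
    (h1 : Tendsto (fun q : AutM E X × AutM E X => q.2⁻¹ * q.1)
      ((U : Filter (AutM E X)) ×ˢ (U : Filter (AutM E X))) (𝓝 1))
    (h2 : Tendsto (fun q : AutM E X × AutM E X => q.1 * q.2⁻¹)
      ((U : Filter (AutM E X)) ×ˢ (U : Filter (AutM E X))) (𝓝 1)) :
    ∃ f : AutM E X, (U : Filter (AutM E X)) ≤ 𝓝 f := by
  have : LocallyCompactSpace X := Manifold.locallyCompact_of_finiteDimensional 𝓘(ℂ, E)
  have hU : CauB (U : Filter (AutM E X)) := ⟨h1, h2⟩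
  have hU' : CauB ((U.map fun g => g⁻¹ : Ultrafilter (AutM E X)) : Filter (AutM E X)) := by
    rw [Ultrafilter.coe_map]
    exact cau_inv hU
  choose a ha using fun x => cau_lm hU x
  choose b hb using fun x => cau_lm hU' x
  have hac : Continuous a := cau_cont ha
  have hbc : Continuous b := cau_cont hb
  have hba : ∀ x, b (a x) = x := by
    intro x
    have h3 : Tendsto (fun g : AutM E X => (g⁻¹, g x)) (U : Filter (AutM E X))
        (((U.map fun g => g⁻¹ : Ultrafilter (AutM E X)) : Filter (AutM E X)) ×ˢ 𝓝 (a x)) := by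
      rw [Ultrafilter.coe_map]
      exact tendsto_map.prodMk (ha x).tendsto
    have h4 := (hb (a x)).comp h3
    have h5 : (fun q : AutM E X × X => q.1 q.2) ∘ (fun g : AutM E X => (g⁻¹, g x)) =
        fun _ => x := by
      funext g
      exact AutM.inv_apply_self g x
    rw [h5] at h4
    exact tendsto_nhds_unique h4 tendsto_const_nhds
  have hab : ∀ x, a (b x) = x := by
    intro x
    have h3 : Tendsto (fun g : AutM E X => (g, g⁻¹ x)) (U : Filter (AutM E X))
        ((U : Filter (AutM E X)) ×ˢ 𝓝 (b x)) := by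
      have h4 := (hb x).tendsto
      rw [Ultrafilter.coe_map, tendsto_map'_iff] at h4
      exact tendsto_id.prodMk h4
    have h4 := (ha (b x)).comp h3
    have h5 : (fun q : AutM E X × X => q.1 q.2) ∘ (fun g : AutM E X => (g, g⁻¹ x)) =
        fun _ => x := by
      funext g
      exact AutM.apply_inv_self g x
    rw [h5] at h4
    exact tendsto_nhds_unique h4 tendsto_const_nhds
  have hta : Tendsto (fun g : AutM E X => g.toCM) (U : Filter (AutM E X)) (𝓝 (⟨a, hac⟩ : C(X, X))) :=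
    (tendsto_iff_cc _ _).2 ha
  have htb : Tendsto (fun g : AutM E X => g⁻¹.toCM) (U : Filter (AutM E X))
      (𝓝 (⟨b, hbc⟩ : C(X, X))) := by
    rw [tendsto_iff_cc]
    intro x
    have h3 := hb x
    unfold Lm at h3
    rw [Ultrafilter.coe_map, ← Filter.map_id (f := 𝓝 x), Filter.prod_map_map_eq',
      tendsto_map'_iff] at h3
    exact h3
  have hma : ContMDiff 𝓘(ℂ, E) 𝓘(ℂ, E) (⊤ : WithTop ℕ∞) (⟨a, hac⟩ : C(X, X)) :=
    contMDiff_of_tendsto (Eventually.of_forall fun g : AutM E X => g.contMDiff) hta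
  have hmb : ContMDiff 𝓘(ℂ, E) 𝓘(ℂ, E) (⊤ : WithTop ℕ∞) (⟨b, hbc⟩ : C(X, X)) :=
    contMDiff_of_tendsto (Eventually.of_forall fun g : AutM E X => g⁻¹.contMDiff) htb
  refine ⟨AutM.ofDiff
      { toFun := a
        invFun := b
        left_inv := hba
        right_inv := hab
        contMDiff_toFun := hma
        contMDiff_invFun := hmb }, ?_⟩
  rw [le_nhds_iff]
  exact ha

end

end Pool.Agent.PSC
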