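import Pool.Agent.ISY.FinA

/-!
# PSC-Defs: convergence to the identity on a set, propagation, pseudoconcave manifolds
-/

set_option autoImplicit false

open Set Topology Filter
open scoped Manifold

namespace Pool.Agent.PSC

open Pool.Agent.ISY

section

variable {E X : Type} [NormedAddCommGroup E] [NormedSpace ℂ E] [TopologicalSpace X]
  [ChartedSpace E X]

/-- the automorphisms `g n` tend to the identity on `A`: their restrictions to `A` tend to the inclusion
map, in the space `C(A, X)` of continuous maps with the compact-open topology -/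
def ToId (g : ℕ → AutM E X) (A : Set X) : Prop :=
  Tendsto (fun n => (g n).toCM.restrict A) atTop (𝓝 ((ContinuousMap.id X).restrict A))

/-- for sequences in `G`, convergence to the identity on `K` implies convergence to the identity
on `W` -/
def Propagates (G : Subgroup (AutM E X)) (K W : Set X) : Prop :=
  ∀ g : ℕ → AutM E X, (∀ n, g n ∈ G) → ToId g K → ToId g W

/-- `X` is pseudoconcave: there is a nonempty, relatively compact open set `Y` such that every boundary
point `p` of `Y` is the centre of a holomorphic disc in `X` which, except for `p`, lies in `Y` -/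
def Pseudoconcave (E X : Type) [NormedAddCommGroup E] [NormedSpace ℂ E] [TopologicalSpace X]
    [ChartedSpace E X] : Prop :=
  ∃ Y : Set X, IsOpen Y ∧ Y.Nonempty ∧ IsCompact (closure Y) ∧
    ∀ p ∈ frontier Y, ∃ φ : ℂ → X,
      ContMDiffOn 𝓘(ℂ, ℂ) 𝓘(ℂ, E) (⊤ : WithTop ℕ∞) φ (Metric.ball (0 : ℂ) 1) ∧ φ 0 = p ∧
        ∀ ζ ∈ Metric.ball (0 : ℂ) 1, ζ ≠ 0 → φ ζ ∈ Y

/-- the automorphisms converge continuously to `a` at `x` along `l` -/
def Lm (l : Filter (AutM E X)) (x a : X) : Prop :=
  Tendsto (fun q : AutM E X × X => q.1 q.2) (l ×ˢ 𝓝 x) (𝓝 a)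

/-- `l` tends to the identity on `A`, in the sense of continuous convergence -/
def Near (l : Filter (AutM E X)) (A : Set X) : Prop :=
  ∀ x ∈ A, Tendsto (fun q : AutM E X × X => q.1 q.2) (l ×ˢ 𝓝[A] x) (𝓝 x)

end

/-- for a locally compact space, convergence in the compact-open topology is continuous convergence -/
theorem tendsto_iff_cc {A Z ι : Type} [TopologicalSpace A] [LocallyCompactSpace A]
    [TopologicalSpace Z] {l : Filter ι} (F : ι → C(A, Z)) (f : C(A, Z)) :
    Tendsto F l (𝓝 f) ↔ ∀ a, Tendsto (fun q : ι × A => F q.1 q.2) (l ×ˢ 𝓝 a) (𝓝 (f a)) := by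
  constructor
  · intro h a
    have h1 : Continuous fun p : C(A, Z) × A => p.1 p.2 := continuous_eval
    have h2 := h1.tendsto (f, a)
    rw [nhds_prod_eq] at h2
    exact h2.comp (Tendsto.prodMap h tendsto_id)
  · intro h
    rw [ContinuousMap.tendsto_nhds_compactOpen]
    intro K hK U hU hfU
    refine hK.induction_on (p := fun K' => ∀ᶠ i in l, MapsTo (F i) K' U) ?_ ?_ ?_ ?_
    · exact Eventually.of_forall fun i x hx => hx.elim
    · intro s t hst ht
      exact ht.mono fun i hi => hi.mono_left hst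
    · intro s t hs ht
      filter_upwards [hs, ht] with i h1 h2
      exact h1.union h2
    · intro x hx
      have h1 := (h x).eventually (hU.mem_nhds (hfU hx))
      obtain ⟨S, hS, T, hT, hST⟩ := mem_prod_iff.1 h1
      refine ⟨T, mem_nhdsWithin_of_mem_nhds hT, ?_⟩
      filter_upwards [hS] with i hi y hy
      exact hST (mk_mem_prod hi hy)

section

variable {E X : Type} [NormedAddCommGroup E] [NormedSpace ℂ E] [TopologicalSpace X]
  [ChartedSpace E X]

theorem tendsto_restrict_iff {ι : Type} {l : Filter ι} (g : ι → AutM E X) (A : Set X)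
    [LocallyCompactSpace A] :
    Tendsto (fun n => (g n).toCM.restrict A) l (𝓝 ((ContinuousMap.id X).restrict A)) ↔
      Near (l.map g) A := by
  rw [tendsto_iff_cc]
  constructor
  · intro h x hx
    have h1 := h ⟨x, hx⟩
    rw [nhdsWithin_eq_map_subtype_coe hx, Filter.prod_map_map_eq' g ((↑) : A → X)]
    rw [tendsto_map'_iff]
    exact h1
  · rintro h ⟨x, hx⟩
    have h1 := h x hx
    rw [nhdsWithin_eq_map_subtype_coe hx, Filter.prod_map_map_eq' g ((↑) : A → X),
      tendsto_map'_iff] at h1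
    exact h1

theorem Lm.tendsto {l : Filter (AutM E X)} {x a : X} (h : Lm l x a) :
    Tendsto (fun g : AutM E X => g x) l (𝓝 a) := by
  have h1 : Tendsto (fun g : AutM E X => (g, x)) l (l ×ˢ 𝓝 x) :=
    tendsto_id.prodMk (tendsto_const_nhds)
  exact h.comp h1

/-- convergence in `Aut X` is continuous convergence at all points -/
theorem le_nhds_iff [LocallyCompactSpace X] {l : Filter (AutM E X)} {f : AutM E X} :
    l ≤ 𝓝 f ↔ ∀ x, Lm l x (f x) := by
  rw [AutM.isInducing_toCM.nhds_eq_comap, ← tendsto_iff_comap, tendsto_iff_cc]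
  exact Iff.rfl

/-- conjugation -/
theorem Lm.conj {l : Filter (AutM E X)} {x a : X} (h : Lm l x a) (k : AutM E X) :
    Lm (l.map fun g => k⁻¹ * g * k) (k⁻¹ x) (k⁻¹ a) := by
  unfold Lm at *
  have h1 : l.map (fun g => k⁻¹ * g * k) ×ˢ 𝓝 (k⁻¹ x) =
      (l ×ˢ 𝓝 x).map (Prod.map (fun g => k⁻¹ * g * k) (fun y => k⁻¹ y)) := by
    rw [← Filter.prod_map_map_eq']
    congr 1
    exact (AutM.toDiff k⁻¹).toHomeomorph.map_nhds_eq x |>.symm
  rw [h1, tendsto_map'_iff]
  have h2 : (fun q : AutM E X × X => q.1 q.2) ∘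
      (Prod.map (fun g => k⁻¹ * g * k) (fun y => k⁻¹ y)) =
      (fun y => k⁻¹ y) ∘ fun q : AutM E X × X => q.1 q.2 := by
    funext q
    simp only [Function.comp, Prod.map, AutM.mul_apply, AutM.apply_inv_self]
  rw [h2]
  exact (k⁻¹.continuous.tendsto a).comp h

theorem Near.mono {l l' : Filter (AutM E X)} {A B : Set X} (h : Near l A) (hl : l' ≤ l)
    (hB : B ⊆ A) : Near l' B := fun x hx =>
  (h x (hB hx)).mono_left (Filter.prod_mono hl (nhdsWithin_mono x hB))

/-- on an open set -/
theorem near_iff_of_isOpen {l : Filter (AutM E X)} {A : Set X} (hA : IsOpen A) :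
    Near l A ↔ ∀ x ∈ A, Tendsto (fun q : AutM E X × X => q.1 q.2) (l ×ˢ 𝓝 x) (𝓝 x) := by
  unfold Near
  refine forall₂_congr fun x hx => ?_
  rw [hA.nhdsWithin_eq hx]

/-- uniformity on compact sets -/
theorem Near.eventually_forall {l : Filter (AutM E X)} {A : Set X} (h : Near l A) {C : Set X}
    (hC : IsCompact C) (hCA : C ⊆ A) {P : X → X → Prop}
    (hP : ∀ x ∈ C, ∀ᶠ z : X × X in 𝓝 (x, x), P z.1 z.2) :
    ∀ᶠ g in l, ∀ x ∈ C, P (g x) x := by
  refine hC.induction_on (p := fun K' => ∀ᶠ g in l, ∀ x ∈ K' ∩ C, P (g x) x) ?_ ?_ ?_ ?_ |>.mono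
    fun g hg x hx => hg x ⟨hx, hx⟩
  · exact Eventually.of_forall fun i x hx => hx.1.elim
  · intro s t hst ht
    exact ht.mono fun i hi x hx => hi x ⟨hst hx.1, hx.2⟩
  · intro s t hs ht
    filter_upwards [hs, ht] with i h1 h2 x hx
    rcases hx.1 with h3 | h3
    · exact h1 x ⟨h3, hx.2⟩
    · exact h2 x ⟨h3, hx.2⟩
  · intro x hx
    have h1 : Tendsto (fun q : AutM E X × X => (q.1 q.2, q.2)) (l ×ˢ 𝓝[A] x) (𝓝 (x, x)) := by
      rw [nhds_prod_eq]
      exact (h x (hCA hx)).prodMk (tendsto_snd.mono_right nhdsWithin_le_nhds)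
    have h2 := h1.eventually (hP x hx)
    obtain ⟨S, hS, T, hT, hST⟩ := mem_prod_iff.1 h2
    refine ⟨T ∩ C, ?_, ?_⟩
    · exact inter_mem (nhdsWithin_mono x hCA hT) self_mem_nhdsWithin
    · filter_upwards [hS] with g hg y hy
      exact hST (mk_mem_prod hg hy.1.1)

end

end Pool.Agent.PSC
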