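import Pool.Agent.PSC.Defs

/-!
# PSC-Disc: closeness to the identity spreads along holomorphic discs

A holomorphic disc with centre `p` which lies in `Y` except for its centre is moved by a small vector `v` of
a chart; the boundary circles stay in `Y`, and the maximum principle gives the estimate.
-/

set_option autoImplicit false

open Set Topology Filter Metric
open scoped Manifold

namespace Pool.Agent.PSC

open Pool.Agent.ISY

section

variable {E X : Type} [NormedAddCommGroup E] [NormedSpace ℂ E] [TopologicalSpace X]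
  [ChartedSpace E X] [IsManifold 𝓘(ℂ, E) (⊤ : WithTop ℕ∞) X]

/-- holomorphy of an automorphism in a chart -/
theorem differentiableAt_chart (g : AutM E X) {p : X} {y : E} (hy : y ∈ (chartAt E p).target)
    (hg : g ((chartAt E p).symm y) ∈ (chartAt E p).source) :
    DifferentiableAt ℂ (fun y => chartAt E p (g ((chartAt E p).symm y))) y := by
  have h1 : ContMDiffAt 𝓘(ℂ, E) 𝓘(ℂ, E) (⊤ : WithTop ℕ∞) g ((chartAt E p).symm y) :=
    g.contMDiff.contMDiffAt
  rw [contMDiffAt_iff_of_mem_source (x := p) (y := p) ((chartAt E p).map_target hy) hg] at h1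
  have h2 := h1.2
  have h3 : ContDiffWithinAt ℂ (⊤ : WithTop ℕ∞)
      (fun y => chartAt E p (g ((chartAt E p).symm y))) (range (𝓘(ℂ, E) : E → E))
      (chartAt E p ((chartAt E p).symm y)) := h2
  rw [(chartAt E p).right_inv hy] at h3
  have h4 : ContDiffAt ℂ (⊤ : WithTop ℕ∞)
      (fun y => chartAt E p (g ((chartAt E p).symm y))) y := by
    rw [← contDiffWithinAt_univ]
    simpa using h3
  exact h4.differentiableAt (by simp)

/-- holomorphy of a disc in a chart -/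
theorem differentiableAt_disc {φ : ℂ → X} {s : ℝ}
    (hφ : ContMDiffOn 𝓘(ℂ, ℂ) 𝓘(ℂ, E) (⊤ : WithTop ℕ∞) φ (ball (0 : ℂ) s)) {p : X} {ζ : ℂ}
    (hζ : ζ ∈ ball (0 : ℂ) s) (hp : φ ζ ∈ (chartAt E p).source) :
    DifferentiableAt ℂ (fun z => chartAt E p (φ z)) ζ := by
  have h1 : ContMDiffAt 𝓘(ℂ, ℂ) 𝓘(ℂ, E) (⊤ : WithTop ℕ∞) φ ζ :=
    hφ.contMDiffAt (isOpen_ball.mem_nhds hζ)
  rw [contMDiffAt_iff_of_mem_source (x := ζ) (y := p) (mem_chart_source ℂ ζ) hp] at h1
  have h2 := h1.2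
  have h3 : ContDiffWithinAt ℂ (⊤ : WithTop ℕ∞)
      (fun z => chartAt E p (φ z)) (range (𝓘(ℂ, ℂ) : ℂ → ℂ)) ζ := h2
  have h4 : ContDiffAt ℂ (⊤ : WithTop ℕ∞) (fun z => chartAt E p (φ z)) ζ := by
    rw [← contDiffWithinAt_univ]
    simpa using h3
  exact h4.differentiableAt (by simp)

/-- the disc lemma -/
theorem disc [T2Space X] [FiniteDimensional ℂ E] {Y : Set X} (hY : IsOpen Y) {p : X}
    (hp : p ∈ closure Y) {φ : ℂ → X}
    (hφ : ContMDiffOn 𝓘(ℂ, ℂ) 𝓘(ℂ, E) (⊤ : WithTop ℕ∞) φ (ball (0 : ℂ) 1)) (h0 : φ 0 = p)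
    (h1 : ∀ ζ ∈ ball (0 : ℂ) 1, ζ ≠ 0 → φ ζ ∈ Y) :
    ∃ δ > 0, ∃ ρ > 0, ∃ C : Set E, IsCompact C ∧ C ⊆ (chartAt E p).target ∧
      ball (chartAt E p p) δ ⊆ (chartAt E p).target ∧
      ∀ (g : AutM E X) (ε : ℝ), 0 < ε → ε < ρ →
        (∀ y ∈ C, (chartAt E p).symm y ∈ closure Y →
          g ((chartAt E p).symm y) ∈ (chartAt E p).source ∧
            ‖chartAt E p (g ((chartAt E p).symm y)) - y‖ ≤ ε) →
        ∀ y ∈ ball (chartAt E p p) δ, g ((chartAt E p).symm y) ∈ (chartAt E p).source ∧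
          ‖chartAt E p (g ((chartAt E p).symm y)) - y‖ ≤ ε := by
  have : ProperSpace E := FiniteDimensional.proper ℂ E
  obtain ⟨e, he⟩ : ∃ e, e = chartAt E p := ⟨_, rfl⟩
  have hps : p ∈ e.source := by rw [he]; exact mem_chart_source E p
  -- the disc in the chart
  have hφc : ContinuousAt φ 0 :=
    (hφ.contMDiffAt (isOpen_ball.mem_nhds (mem_ball_self one_pos))).continuousAt
  have hn : φ ⁻¹' e.source ∈ 𝓝 (0 : ℂ) :=
    hφc.preimage_mem_nhds (e.open_source.mem_nhds (by rw [h0]; exact hps))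
  obtain ⟨r₀, hr₀, hr₀s⟩ := Metric.mem_nhds_iff.1 hn
  obtain ⟨r₁, hr₁⟩ : ∃ r₁ : ℝ, r₁ = min r₀ 1 := ⟨_, rfl⟩
  have hr₁0 : 0 < r₁ := by rw [hr₁]; exact lt_min hr₀ one_pos
  have hr₁1 : r₁ ≤ 1 := by rw [hr₁]; exact min_le_right _ _
  have hb1 : ball (0 : ℂ) r₁ ⊆ ball 0 1 := ball_subset_ball hr₁1
  have hs1 : ∀ ζ ∈ ball (0 : ℂ) r₁, φ ζ ∈ e.source := fun ζ hζ =>
    hr₀s (ball_subset_ball (by rw [hr₁]; exact min_le_left _ _) hζ)
  obtain ⟨r, hr⟩ : ∃ r : ℝ, r = r₁ / 2 := ⟨_, rfl⟩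
  have hr0 : 0 < r := by rw [hr]; positivity
  have hrr : r < r₁ := by rw [hr]; linarith
  have hcb : closedBall (0 : ℂ) r ⊆ ball 0 r₁ := closedBall_subset_ball hrr
  obtain ⟨γ, hγ⟩ : ∃ γ : ℂ → E, γ = fun ζ => e (φ ζ) := ⟨_, rfl⟩
  have hγd : ∀ ζ ∈ ball (0 : ℂ) r₁, DifferentiableAt ℂ γ ζ := by
    intro ζ hζ
    rw [hγ, he]
    refine differentiableAt_disc hφ (hb1 hζ) ?_
    have h := hs1 ζ hζ
    rwa [he] at h
  have hγt : ∀ ζ ∈ ball (0 : ℂ) r₁, γ ζ ∈ e.target := fun ζ hζ => by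
    rw [hγ]; exact e.map_source (hs1 ζ hζ)
  have hγs : ∀ ζ ∈ ball (0 : ℂ) r₁, e.symm (γ ζ) = φ ζ := fun ζ hζ => by
    rw [hγ]; exact e.left_inv (hs1 ζ hζ)
  have hγ0 : γ 0 = e p := by rw [hγ]; simp only [h0]
  have hγc : ContinuousOn γ (closedBall (0 : ℂ) r) := fun ζ hζ =>
    (hγd ζ (hcb hζ)).continuousAt.continuousWithinAt
  -- the compact set
  have hK0 : IsCompact (γ '' closedBall (0 : ℂ) r) := (isCompact_closedBall _ _).image_of_continuousOn hγc
  obtain ⟨ρ₂, hρ₂, hρ₂s⟩ := hK0.exists_cthickening_subset_open e.open_target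
    (image_subset_iff.2 fun ζ hζ => hγt ζ (hcb hζ))
  obtain ⟨ρ, hρ⟩ : ∃ ρ : ℝ, ρ = ρ₂ / 2 := ⟨_, rfl⟩
  have hρ0 : 0 < ρ := by rw [hρ]; positivity
  obtain ⟨C, hC⟩ : ∃ C : Set E, C = cthickening ρ (γ '' closedBall (0 : ℂ) r) := ⟨_, rfl⟩
  have hCc : IsCompact C := by rw [hC]; exact hK0.cthickening
  have hCmem : ∀ y, y ∈ C ↔ ∃ ζ ∈ closedBall (0 : ℂ) r, ‖y - γ ζ‖ ≤ ρ := by
    intro y
    rw [hC, hK0.cthickening_eq_biUnion_closedBall hρ0.le]
    simp only [mem_iUnion, mem_closedBall, dist_eq_norm, exists_prop, mem_image]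
    constructor
    · rintro ⟨_, ⟨ζ, hζ, rfl⟩, h⟩
      exact ⟨ζ, hζ, h⟩
    · rintro ⟨ζ, hζ, h⟩
      exact ⟨_, ⟨ζ, hζ, rfl⟩, h⟩
  have hCt : ∀ y ∈ C, ∀ w : E, ‖w - y‖ ≤ ρ → w ∈ e.target := by
    intro y hy w hw
    obtain ⟨ζ, hζ, h⟩ := (hCmem y).1 hy
    apply hρ₂s
    rw [hK0.cthickening_eq_biUnion_closedBall hρ₂.le]
    refine mem_iUnion₂.2 ⟨γ ζ, mem_image_of_mem _ hζ, ?_⟩
    rw [mem_closedBall, dist_eq_norm]
    calc ‖w - γ ζ‖ = ‖(w - y) + (y - γ ζ)‖ := by congr 1; abel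
      _ ≤ ‖w - y‖ + ‖y - γ ζ‖ := norm_add_le _ _
      _ ≤ ρ + ρ := add_le_add hw h
      _ = ρ₂ := by rw [hρ]; ring
  have hCt' : C ⊆ e.target := fun y hy => hCt y hy y (by rw [sub_self, norm_zero]; exact hρ0.le)
  -- the circle
  have hS0 : IsCompact (γ '' sphere (0 : ℂ) r) :=
    (isCompact_sphere _ _).image_of_continuousOn (hγc.mono sphere_subset_closedBall)
  have hYo : IsOpen (e.target ∩ e.symm ⁻¹' Y) := e.isOpen_inter_preimage_symm hY
  obtain ⟨δ₀, hδ₀, hδ₀s⟩ := hS0.exists_cthickening_subset_open hYo (by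
    rw [image_subset_iff]
    intro ζ hζ
    have hζ' := hcb (sphere_subset_closedBall hζ)
    refine ⟨hγt ζ hζ', ?_⟩
    rw [mem_preimage, hγs ζ hζ']
    refine h1 ζ (hb1 hζ') ?_
    rintro rfl
    rw [mem_sphere, dist_self] at hζ
    exact hr0.ne hζ)
  obtain ⟨δ, hδ⟩ : ∃ δ : ℝ, δ = min δ₀ ρ := ⟨_, rfl⟩
  have hδ0 : 0 < δ := by rw [hδ]; exact lt_min hδ₀ hρ0
  have hzC : ∀ ζ ∈ closedBall (0 : ℂ) r, ∀ v : E, ‖v‖ ≤ δ → γ ζ + v ∈ C := by
    intro ζ hζ v hv
    rw [hCmem]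
    refine ⟨ζ, hζ, ?_⟩
    rw [add_sub_cancel_left]
    exact hv.trans (by rw [hδ]; exact min_le_right _ _)
  have hbt : ball (e p) δ ⊆ e.target := by
    intro y hy
    rw [mem_ball, dist_eq_norm] at hy
    have h := hCt' (hzC 0 (mem_closedBall_self hr0.le) (y - e p) hy.le)
    rwa [hγ0, add_sub_cancel] at h
  rw [← he]
  refine ⟨δ, hδ0, ρ, hρ0, C, hCc, hCt', hbt, ?_⟩
  intro g ε hε hερ H y hy
  obtain ⟨v, hv⟩ : ∃ v : E, v = y - e p := ⟨_, rfl⟩
  have hvδ : ‖v‖ ≤ δ := by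
    rw [mem_ball, dist_eq_norm, ← hv] at hy
    exact hy.le
  obtain ⟨Z, hZ⟩ : ∃ Z : ℝ → ℂ → E, Z = fun (t : ℝ) (ζ : ℂ) => γ ζ + (t : ℂ) • v := ⟨_, rfl⟩
  have htv : ∀ t ∈ Icc (0 : ℝ) 1, ‖(t : ℂ) • v‖ ≤ δ := by
    intro t ht
    rw [norm_smul, Complex.norm_real, Real.norm_of_nonneg ht.1]
    calc t * ‖v‖ ≤ 1 * ‖v‖ := mul_le_mul_of_nonneg_right ht.2 (norm_nonneg _)
      _ ≤ δ := by rw [one_mul]; exact hvδ
  have hZC : ∀ t ∈ Icc (0 : ℝ) 1, ∀ ζ ∈ closedBall (0 : ℂ) r, Z t ζ ∈ C := by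
    intro t ht ζ hζ
    rw [hZ]
    exact hzC ζ hζ _ (htv t ht)
  have hgc : Continuous g := g.continuous
  -- the set of parameters
  have key : Icc (0 : ℝ) 1 ⊆ {t | ∀ ζ ∈ closedBall (0 : ℂ) r, g (e.symm (Z t ζ)) ∈ e.source ∧
      ‖e (g (e.symm (Z t ζ))) - Z t ζ‖ ≤ ε} := by
    refine IsClosed.Icc_subset_of_forall_mem_nhdsWithin ?_ ?_ ?_
    · -- closed
      obtain ⟨D, hD⟩ : ∃ D : Set (X × E), D = (fun q : E × E => (e.symm q.1, q.2)) ''
          {q : E × E | q.2 ∈ C ∧ ‖q.1 - q.2‖ ≤ ε} := ⟨_, rfl⟩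
      have hDc : IsClosed D := by
        rw [hD]
        apply IsCompact.isClosed
        refine IsCompact.image_of_continuousOn ?_ ?_
        · have h2 : IsCompact (closedBall (0 : E) ε ×ˢ C) := (isCompact_closedBall _ _).prod hCc
          have h3 : {q : E × E | q.2 ∈ C ∧ ‖q.1 - q.2‖ ≤ ε} =
              (fun q : E × E => (q.1 + q.2, q.2)) '' (closedBall (0 : E) ε ×ˢ C) := by
            ext q
            constructor
            · rintro ⟨h4, h5⟩
              refine ⟨(q.1 - q.2, q.2), ⟨?_, h4⟩, ?_⟩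
              · rw [mem_closedBall, dist_zero_right]; exact h5
              · exact Prod.ext (sub_add_cancel _ _) rfl
            · rintro ⟨q', ⟨h4, h5⟩, rfl⟩
              refine ⟨h5, ?_⟩
              rw [mem_closedBall, dist_zero_right] at h4
              simpa using h4
          rw [h3]
          exact h2.image (by fun_prop)
        · have h2 : ContinuousOn (fun q : E × E => e.symm q.1)
              {q : E × E | q.2 ∈ C ∧ ‖q.1 - q.2‖ ≤ ε} := by
            refine e.continuousOn_symm.comp continuous_fst.continuousOn ?_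
            intro q hq
            exact hCt q.2 hq.1 q.1 (hq.2.trans hερ.le)
          exact h2.prodMk continuous_snd.continuousOn
      have h2 : {t | ∀ ζ ∈ closedBall (0 : ℂ) r, g (e.symm (Z t ζ)) ∈ e.source ∧
          ‖e (g (e.symm (Z t ζ))) - Z t ζ‖ ≤ ε} ∩ Icc 0 1 =
          ⋂ ζ ∈ closedBall (0 : ℂ) r, (Icc (0 : ℝ) 1 ∩ (fun t => (g (e.symm (Z t ζ)), Z t ζ)) ⁻¹' D) := by
        ext t
        simp only [mem_inter_iff, mem_ofPred_eq, mem_iInter, mem_preimage]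
        constructor
        · rintro ⟨h3, ht⟩ ζ hζ
          refine ⟨ht, ?_⟩
          rw [hD]
          refine ⟨(e (g (e.symm (Z t ζ))), Z t ζ), ⟨hZC t ht ζ hζ, (h3 ζ hζ).2⟩, ?_⟩
          exact Prod.ext (e.left_inv (h3 ζ hζ).1) rfl
        · intro h3
          refine ⟨?_, (h3 0 (mem_closedBall_self hr0.le)).1⟩
          intro ζ hζ
          obtain ⟨ht, h4⟩ := h3 ζ hζ
          rw [hD] at h4
          obtain ⟨q, ⟨h5, h6⟩, h7⟩ := h4
          have h8 : e.symm q.1 = g (e.symm (Z t ζ)) := congrArg Prod.fst h7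
          have h9 : q.2 = Z t ζ := congrArg Prod.snd h7
          have h10 : q.1 ∈ e.target := hCt q.2 h5 q.1 (h6.trans hερ.le)
          rw [← h8, ← h9, e.right_inv h10]
          exact ⟨e.map_target h10, h6⟩
      rw [h2]
      refine isClosed_biInter fun ζ hζ => ?_
      refine ContinuousOn.preimage_isClosed_of_isClosed ?_ isClosed_Icc hDc
      have hZt : Continuous (fun t : ℝ => Z t ζ) := by
        rw [hZ]
        have h3 : Continuous (fun t : ℝ => (t : ℂ) • v) :=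
          (Complex.continuous_ofReal).smul continuous_const
        exact continuous_const.add h3
      have h3 : ContinuousOn (fun t : ℝ => e.symm (Z t ζ)) (Icc 0 1) :=
        e.continuousOn_symm.comp hZt.continuousOn fun t ht => hCt' (hZC t ht ζ hζ)
      exact (hgc.comp_continuousOn h3).prodMk hZt.continuousOn
    · -- the start
      intro ζ hζ
      have hζ' := hcb hζ
      have hZ0 : Z 0 ζ = γ ζ := by rw [hZ]; simp
      rw [hZ0]
      refine H (γ ζ) ?_ ?_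
      · rw [← hZ0]; exact hZC 0 ⟨le_rfl, zero_le_one⟩ ζ hζ
      · rw [hγs ζ hζ']
        by_cases hz : ζ = 0
        · rw [hz, h0]; exact hp
        · exact subset_closure (h1 ζ (hb1 hζ') hz)
    · -- open
      rintro t ⟨ht, htI⟩
      have htI' : t ∈ Icc (0 : ℝ) 1 := Ico_subset_Icc_self htI
      have hZj : ∀ ζ ∈ ball (0 : ℂ) r₁, ContinuousAt (fun q : ℝ × ℂ => Z q.1 q.2) (t, ζ) := by
        intro ζ hζ
        rw [hZ]
        have h2 : ContinuousAt (fun q : ℝ × ℂ => γ q.2) (t, ζ) :=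
          ContinuousAt.comp (f := fun q : ℝ × ℂ => q.2) (g := γ) (x := (t, ζ))
            (hγd ζ hζ).continuousAt continuousAt_snd
        have h3 : Continuous (fun q : ℝ × ℂ => (q.1 : ℂ) • v) :=
          (Complex.continuous_ofReal.comp continuous_fst).smul continuous_const
        exact h2.add h3.continuousAt
      have h2 : ∀ᶠ t' in 𝓝 t, ∀ ζ ∈ closedBall (0 : ℂ) r, g (e.symm (Z t' ζ)) ∈ e.source := by
        refine (isCompact_closedBall (0 : ℂ) r).eventually_forall_of_forall_eventually ?_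
        intro ζ hζ
        have h3 : ContinuousAt (fun q : ℝ × ℂ => g (e.symm (Z q.1 q.2))) (t, ζ) := by
          refine hgc.continuousAt.comp ?_
          refine ContinuousAt.comp (g := e.symm) (f := fun q : ℝ × ℂ => Z q.1 q.2) ?_
            (hZj ζ (hcb hζ))
          exact e.continuousAt_symm (hCt' (hZC t htI' ζ hζ))
        exact h3.eventually (e.open_source.mem_nhds (ht ζ hζ).1)
      filter_upwards [nhdsWithin_le_nhds h2, Ioc_mem_nhdsGT htI.2] with t' h3 h4 ζ hζ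
      have ht' : t' ∈ Icc (0 : ℝ) 1 := ⟨htI.1.trans h4.1.le, h4.2⟩
      refine ⟨h3 ζ hζ, ?_⟩
      -- the maximum principle
      have hcl : closure (ball (0 : ℂ) r) = closedBall 0 r := closure_ball _ hr0.ne'
      have hd : DifferentiableOn ℂ (fun ζ => e (g (e.symm (Z t' ζ))) - Z t' ζ)
          (closure (ball (0 : ℂ) r)) := by
        rw [hcl]
        intro z hz
        have h5 : DifferentiableAt ℂ (Z t') z := by
          rw [hZ]
          exact (hγd z (hcb hz)).add_const _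
        have h6 : DifferentiableAt ℂ (fun y => e (g (e.symm y))) (Z t' z) := by
          rw [he]
          refine differentiableAt_chart g ?_ ?_
          · rw [← he]; exact hCt' (hZC t' ht' z hz)
          · rw [← he]; exact h3 z hz
        exact ((h6.comp z h5).sub h5).differentiableWithinAt
      refine Complex.norm_le_of_forall_mem_frontier_norm_le (U := ball (0 : ℂ) r) isBounded_ball
        hd.diffContOnCl ?_ (by rw [hcl]; exact hζ)
      intro z hz
      rw [frontier_ball _ hr0.ne'] at hz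
      have hz' := sphere_subset_closedBall hz
      refine (H (Z t' z) (hZC t' ht' z hz') ?_).2
      apply subset_closure
      have h5 : Z t' z ∈ cthickening δ₀ (γ '' sphere (0 : ℂ) r) := by
        refine mem_cthickening_of_dist_le (Z t' z) (γ z) δ₀ _ (mem_image_of_mem _ hz) ?_
        rw [dist_eq_norm, hZ]
        simp only [add_sub_cancel_left]
        exact (htv t' ht').trans (by rw [hδ]; exact min_le_left _ _)
      exact (hδ₀s h5).2
  have hfin := key (right_mem_Icc.2 zero_le_one) 0 (mem_closedBall_self hr0.le)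
  have hZ1 : Z 1 0 = y := by
    simp only [hZ, hγ0, hv]
    simp
  rwa [hZ1] at hfin

end

end Pool.Agent.PSC
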