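import Pool.Agent.PSC.Seq

/-!
# PSC-Fin: the main theorem
-/

set_option autoImplicit false

open Set Topology Filter
open scoped Manifold

namespace Pool.Agent.PSC

open Pool.Agent.ISY

section

variable {E X : Type} [NormedAddCommGroup E] [NormedSpace ℂ E] [FiniteDimensional ℂ E]
  [TopologicalSpace X] [T2Space X] [SecondCountableTopology X] [ConnectedSpace X]
  [ChartedSpace E X] [IsManifold 𝓘(ℂ, E) (⊤ : WithTop ℕ∞) X]

/-- propagation from a nonempty compact set to an open set containing it -/
theorem locallyCompact_of_propagates {G : Subgroup (AutM E X)}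
    (hcl : IsClosed (G : Set (AutM E X))) (htr : Transitive G) {K W : Set X} (hK : IsCompact K)
    (hne : K.Nonempty) (hW : IsOpen W) (hKW : K ⊆ W) (hP : Propagates G K W) :
    LocallyCompactSpace G := by
  have : LocallyCompactSpace X := Manifold.locallyCompact_of_finiteDimensional 𝓘(ℂ, E)
  exact locallyCompact hcl htr hK hne hW hKW fun l hl h => near_of_propagates hK hW hP hl h

/-- a closed transitive group of automorphisms of a pseudoconcave manifold is locally compact -/
theorem locallyCompact_of_pseudoconcave (hX : Pseudoconcave E X) {G : Subgroup (AutM E X)}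
    (hcl : IsClosed (G : Set (AutM E X))) (htr : Transitive G) : LocallyCompactSpace G := by
  obtain ⟨Y, hY, hne, hYc, h⟩ := hX
  obtain ⟨W, hW, hYW, hP⟩ := spreads_of_pseudoconcave hY h
  exact locallyCompact hcl htr hYc hne.closure hW hYW fun l _ hl => hP l hl

/-- Q1 for a homogeneous manifold whose group is locally compact -/
theorem hasFlow_of_locallyCompact [Nontrivial E] (htr : Transitive (⊤ : Subgroup (AutM E X)))
    (h : LocallyCompactSpace (⊤ : Subgroup (AutM E X))) : HasFlow E X := by
  by_contra hcon
  have i1 := totallyDisconnectedSpace_of_not_hasFlow hcon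
  exact not_totallyDisconnected (by simp) htr h (isTotallyDisconnected_of_totallyDisconnectedSpace _)

end

end Pool.Agent.PSC
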