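import Pool.Agent.PSC.Defs

/-!
# PSC-Spr: propagation from a compact set to a neighbourhood is propagation to the whole manifold

If convergence to the identity on `K` implies convergence to the identity on the open set `W ⊇ K`, for the
filters of elements of a closed transitive group `G`, then it implies convergence in `Aut X`.
-/

set_option autoImplicit false

open Set Topology Filter Metric
open scoped Manifold

namespace Pool.Agent.PSC

open Pool.Agent.ISY

section

variable {E X : Type} [NormedAddCommGroup E] [NormedSpace ℂ E] [TopologicalSpace X]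
  [ChartedSpace E X]

private theorem spr_step {l : Filter (AutM E X)} {K W : Set X} (hW : IsOpen W) (h : Near l W)
    {k : AutM E X} (hk : ∀ x ∈ K, k x ∈ W) : Near (l.map fun g => k⁻¹ * g * k) K := by
  intro x hx
  have h1 : Lm l (k x) (k x) := (near_iff_of_isOpen hW).1 h (k x) (hk x hx)
  have h2 := h1.conj k
  rw [AutM.inv_apply_self] at h2
  exact h2.mono_left (Filter.prod_mono le_rfl nhdsWithin_le_nhds)

private theorem spr_map (l : Filter (AutM E X)) (h k : AutM E X) :
    (l.map fun g => h⁻¹ * g * h).map (fun g => k⁻¹ * g * k) =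
      l.map fun g => (h * k)⁻¹ * g * (h * k) := by
  rw [Filter.map_map]
  have h1 : (fun g : AutM E X => k⁻¹ * g * k) ∘ (fun g => h⁻¹ * g * h) =
      fun g => (h * k)⁻¹ * g * (h * k) := by
    funext g
    simp only [Function.comp, mul_inv_rev, mul_assoc]
  rw [h1]

variable [FiniteDimensional ℂ E] [T2Space X] [SecondCountableTopology X] [ConnectedSpace X]
  [IsManifold 𝓘(ℂ, E) (⊤ : WithTop ℕ∞) X]

/-- open subgroups of a closed transitive group are transitive -/
theorem transitive_of_open {G : Subgroup (AutM E X)} (hcl : IsClosed (G : Set (AutM E X)))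
    (htr : Transitive G) {V : Set (AutM E X)} (hV : V ∈ 𝓝 (1 : AutM E X)) {H : Subgroup (AutM E X)}
    (hH : ∀ k ∈ V, k ∈ G → k ∈ H) (hHG : H ≤ G) : Transitive H := by
  have i1 := isTopologicalGroup_autM E X
  have i2 := polishSpace_autM E X
  have i3 := continuousSMul_autM E X
  have i4 := t2Space_autM E X
  have : LocallyCompactSpace X := Manifold.locallyCompact_of_finiteDimensional 𝓘(ℂ, E)
  have : PolishSpace G := hcl.polishSpace
  have htr' : ∀ x y : X, ∃ g : G, g • x = y := fun x y => by
    obtain ⟨g, hg, h⟩ := htr x y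
    exact ⟨⟨g, hg⟩, h⟩
  have hHo : IsOpen ((H.subgroupOf G : Subgroup G) : Set G) := by
    refine Subgroup.isOpen_of_mem_nhds (g := 1) _ ?_
    have h1 : (Subtype.val : G → AutM E X) ⁻¹' V ∈ 𝓝 (1 : G) :=
      continuous_subtype_val.continuousAt.preimage_mem_nhds (by simpa using hV)
    refine mem_of_superset h1 ?_
    intro k hk
    exact hH k.1 hk k.2
  have hor : ∀ x : X, IsOpen {z : X | ∃ h ∈ H, h x = z} := by
    intro x
    have h1 := isOpenMap_smul htr' x _ hHo
    convert h1 using 1
    ext z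
    constructor
    · rintro ⟨h, hh, rfl⟩
      exact ⟨⟨h, hHG hh⟩, hh, rfl⟩
    · rintro ⟨g, hg, rfl⟩
      exact ⟨g.1, hg, rfl⟩
  intro x y
  have hc : IsClopen {z : X | ∃ h ∈ H, h x = z} := by
    refine ⟨⟨?_⟩, hor x⟩
    have h1 : {z : X | ∃ h ∈ H, h x = z}ᶜ =
        ⋃ z ∈ {z : X | ∃ h ∈ H, h x = z}ᶜ, {w : X | ∃ h ∈ H, h z = w} := by
      ext w
      simp only [mem_iUnion, mem_compl_iff, exists_prop]
      constructor
      · intro hw
        exact ⟨w, hw, 1, H.one_mem, rfl⟩
      · rintro ⟨z, hz, h, hh, rfl⟩ ⟨h', hh', hz'⟩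
        refine hz ⟨h⁻¹ * h', H.mul_mem (H.inv_mem hh) hh', ?_⟩
        rw [AutM.mul_apply, hz', AutM.inv_apply_self]
    rw [h1]
    exact isOpen_biUnion fun z _ => hor z
  have h1 := hc.eq_univ ⟨x, 1, H.one_mem, rfl⟩
  have h2 : y ∈ {z : X | ∃ h ∈ H, h x = z} := by rw [h1]; exact mem_univ y
  exact h2

theorem spread {G : Subgroup (AutM E X)} (hcl : IsClosed (G : Set (AutM E X)))
    (htr : Transitive G) {K W : Set X} (hK : IsCompact K) (hne : K.Nonempty) (hW : IsOpen W)
    (hKW : K ⊆ W)
    (hP : ∀ l : Filter (AutM E X), l ≤ 𝓟 (G : Set (AutM E X)) → Near l K → Near l W)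
    {l : Filter (AutM E X)} (hl : l ≤ 𝓟 (G : Set (AutM E X))) (h : Near l K) : l ≤ 𝓝 1 := by
  have i1 := isTopologicalGroup_autM E X
  have : LocallyCompactSpace X := Manifold.locallyCompact_of_finiteDimensional 𝓘(ℂ, E)
  obtain ⟨V, hVd⟩ : ∃ V : Set (AutM E X), V = {k : AutM E X | MapsTo k K W ∧ MapsTo (k⁻¹ : AutM E X) K W} :=
    ⟨_, rfl⟩
  have hV1 : IsOpen {k : AutM E X | MapsTo k K W} :=
    (ContinuousMap.isOpen_setOfPred_mapsTo hK hW).preimage AutM.continuous_toCM
  have hVo : IsOpen V := by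
    rw [hVd]
    exact hV1.inter (hV1.preimage continuous_inv)
  have h1V : (1 : AutM E X) ∈ V := by
    rw [hVd]
    refine ⟨fun x hx => hKW hx, fun x hx => ?_⟩
    rw [inv_one]
    exact hKW hx
  obtain ⟨H, hH⟩ : ∃ H : Subgroup (AutM E X), H = Subgroup.closure (V ∩ G) := ⟨_, rfl⟩
  have hHG : H ≤ G := by
    rw [hH, Subgroup.closure_le]
    exact inter_subset_right
  have hHtr : Transitive H := by
    refine transitive_of_open hcl htr (hVo.mem_nhds h1V) ?_ hHG
    intro k hk hkG
    rw [hH]
    exact Subgroup.subset_closure ⟨hk, hkG⟩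
  have hconjG : ∀ k ∈ G, (l.map fun g => k⁻¹ * g * k) ≤ 𝓟 (G : Set (AutM E X)) := by
    intro k hk
    rw [le_principal_iff, mem_map]
    filter_upwards [le_principal_iff.1 hl] with g hg
    exact G.mul_mem (G.mul_mem (G.inv_mem hk) hg) hk
  -- the conjugated filters tend to the identity on `K`
  have hQ : ∀ k ∈ H, Near (l.map fun g => k⁻¹ * g * k) K := by
    intro k hk
    rw [hH] at hk
    induction hk using Subgroup.closure_induction_right with
    | one => simpa using h
    | mul_right x hx y hy ih =>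
      have hxG : x ∈ G := hHG (by rw [hH]; exact hx)
      rw [← spr_map]
      refine spr_step hW (hP _ (hconjG x hxG) ih) ?_
      have h2 := hy.1
      rw [hVd] at h2
      exact fun z hz => h2.1 hz
    | mul_inv_cancel x hx y hy ih =>
      have hxG : x ∈ G := hHG (by rw [hH]; exact hx)
      rw [← spr_map]
      refine spr_step hW (hP _ (hconjG x hxG) ih) ?_
      have h2 := hy.1
      rw [hVd] at h2
      exact fun z hz => h2.2 hz
  obtain ⟨w, hw⟩ := hne
  rw [le_nhds_iff]
  intro x
  obtain ⟨k, hk, rfl⟩ := hHtr w x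
  have h2 : Lm (l.map fun g => k⁻¹ * g * k) w w :=
    (near_iff_of_isOpen hW).1 (hP _ (hconjG k (hHG hk)) (hQ k hk)) w (hKW hw)
  have h3 := h2.conj k⁻¹
  rw [spr_map, inv_inv] at h3
  simpa using h3

end

end Pool.Agent.PSC
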