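import Pool.Agent.PSC.Mon
import Pool.Agent.PSC.Spr
import Pool.Agent.PSC.Cau

/-!
# PSC-Loc: propagation implies that the group is locally compact
-/

set_option autoImplicit false

open Set Topology Filter
open scoped Manifold

namespace Pool.Agent.PSC

open Pool.Agent.ISY

section

variable {E X : Type} [NormedAddCommGroup E] [NormedSpace ℂ E] [FiniteDimensional ℂ E]
  [TopologicalSpace X] [T2Space X] [SecondCountableTopology X] [ConnectedSpace X]
  [ChartedSpace E X] [IsManifold 𝓘(ℂ, E) (⊤ : WithTop ℕ∞) X]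

/-- the left Cauchy property -/
private theorem loc_left {G : Subgroup (AutM E X)} (hcl : IsClosed (G : Set (AutM E X)))
    (htr : Transitive G) {K W L : Set X} (hK : IsCompact K) (hne : K.Nonempty) (hW : IsOpen W)
    (hKW : K ⊆ W)
    (hP : ∀ l : Filter (AutM E X), l ≤ 𝓟 (G : Set (AutM E X)) → Near l K → Near l W)
    (hL : IsCompact L) (hKL : K ⊆ L) {U : Ultrafilter (AutM E X)}
    (hUG : (U : Filter (AutM E X)) ≤ 𝓟 (G : Set (AutM E X)))
    (h1 : ∀ x ∈ L, ∃ a, Lm (U : Filter (AutM E X)) x a)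
    (h2 : ∀ x ∈ L, ∃ a, Lm ((U : Filter (AutM E X)).map fun g => g⁻¹) x a)
    (h3 : ∀ᶠ g : AutM E X in (U : Filter (AutM E X)), MapsTo g K L) :
    Tendsto (fun q : AutM E X × AutM E X => q.2⁻¹ * q.1)
      ((U : Filter (AutM E X)) ×ˢ (U : Filter (AutM E X))) (𝓝 1) := by
  obtain ⟨F, hF⟩ : ∃ F : Filter (AutM E X), F = ((U : Filter (AutM E X)) ×ˢ
    (U : Filter (AutM E X))).map fun q => q.2⁻¹ * q.1 := ⟨_, rfl⟩
  have hFG : F ≤ 𝓟 (G : Set (AutM E X)) := by
    rw [hF, le_principal_iff, mem_map]
    have h4 := le_principal_iff.1 hUG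
    filter_upwards [prod_mem_prod h4 h4] with q hq
    exact G.mul_mem (G.inv_mem hq.2) hq.1
  have hFK : Near F K := by
    intro x hx
    obtain ⟨a, ha⟩ := h1 x (hKL hx)
    have haL : a ∈ L := by
      refine hL.isClosed.mem_of_tendsto ha.tendsto ?_
      filter_upwards [h3] with g hg
      exact hg hx
    obtain ⟨b, hb⟩ := h2 a haL
    have h4 : Lm F x b := by
      unfold Lm
      rw [hF]
      have h5 : (((U : Filter (AutM E X)) ×ˢ (U : Filter (AutM E X))).map
          fun q : AutM E X × AutM E X => q.2⁻¹ * q.1) ×ˢ 𝓝 x =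
          ((((U : Filter (AutM E X)) ×ˢ (U : Filter (AutM E X))) ×ˢ 𝓝 x).map
            (Prod.map (fun q : AutM E X × AutM E X => q.2⁻¹ * q.1) id)) := by
        rw [← Filter.prod_map_map_eq', Filter.map_id]
      rw [h5, tendsto_map'_iff]
      have h6 : Tendsto (fun z : (AutM E X × AutM E X) × X => (z.1.2⁻¹, z.1.1 z.2))
          (((U : Filter (AutM E X)) ×ˢ (U : Filter (AutM E X))) ×ˢ 𝓝 x)
          (((U : Filter (AutM E X)).map fun g => g⁻¹) ×ˢ 𝓝 a) := by
        refine Tendsto.prodMk ?_ ?_
        · exact tendsto_map.comp (tendsto_snd.comp tendsto_fst)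
        · have h7 : Tendsto (fun z : (AutM E X × AutM E X) × X => (z.1.1, z.2))
              (((U : Filter (AutM E X)) ×ˢ (U : Filter (AutM E X))) ×ˢ 𝓝 x)
              ((U : Filter (AutM E X)) ×ˢ 𝓝 x) :=
            (tendsto_fst.comp tendsto_fst).prodMk tendsto_snd
          exact Tendsto.comp ha h7
      have h8 := Tendsto.comp (g := fun q : AutM E X × X => q.1 q.2) hb h6
      exact h8
    have h5 : b = x := by
      have h6 := h4.tendsto
      rw [hF, tendsto_map'_iff] at h6
      have h7 : Tendsto (fun g : AutM E X => (g, g)) (U : Filter (AutM E X))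
          ((U : Filter (AutM E X)) ×ˢ (U : Filter (AutM E X))) := tendsto_id.prodMk tendsto_id
      have h8 := h6.comp h7
      have h9 : ((fun g : AutM E X => g x) ∘ fun q : AutM E X × AutM E X => q.2⁻¹ * q.1) ∘
          (fun g : AutM E X => (g, g)) = fun _ => x := by
        funext g
        simp only [Function.comp, inv_mul_cancel, AutM.one_apply]
      rw [h9] at h8
      exact tendsto_nhds_unique h8 tendsto_const_nhds |>.symm ▸ rfl
    rw [h5] at h4
    exact h4.mono_left (Filter.prod_mono le_rfl nhdsWithin_le_nhds)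
  have h4 := spread hcl htr hK hne hW hKW hP hFG hFK
  rw [hF] at h4
  exact h4

/-- propagation implies that the group is locally compact -/
theorem locallyCompact {G : Subgroup (AutM E X)} (hcl : IsClosed (G : Set (AutM E X)))
    (htr : Transitive G) {K W : Set X} (hK : IsCompact K) (hne : K.Nonempty) (hW : IsOpen W)
    (hKW : K ⊆ W)
    (hP : ∀ l : Filter (AutM E X), l ≤ 𝓟 (G : Set (AutM E X)) → Near l K → Near l W) :
    LocallyCompactSpace G := by
  have i1 := isTopologicalGroup_autM E X
  have i4 := t2Space_autM E X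
  have : LocallyCompactSpace X := Manifold.locallyCompact_of_finiteDimensional 𝓘(ℂ, E)
  obtain ⟨L, hL, hKL⟩ := exists_compact_superset hK
  choose O' O h1 h2 h3 h4 h5 h6 using fun x : X => exists_mon (E := E) x
  obtain ⟨t, ht⟩ := hL.elim_finite_subcover O' h1 fun x _ => mem_iUnion.2 ⟨x, h2 x⟩
  obtain ⟨S, hS⟩ : ∃ S : Set (AutM E X), S = {g : AutM E X |
      (∀ x ∈ t, MapsTo g (closure (O' x)) (O x)) ∧ MapsTo g K (interior L)} := ⟨_, rfl⟩
  have hSo : IsOpen S := by
    have h7 : S = (⋂ x ∈ t, {g : AutM E X | MapsTo g (closure (O' x)) (O x)}) ∩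
        {g : AutM E X | MapsTo g K (interior L)} := by
      rw [hS]
      ext g
      simp only [mem_inter_iff, mem_iInter, mem_ofPred_eq]
    rw [h7]
    refine IsOpen.inter (isOpen_biInter_finset fun x _ => ?_) ?_
    · exact (ContinuousMap.isOpen_setOfPred_mapsTo (h3 x) (h4 x)).preimage AutM.continuous_toCM
    · exact (ContinuousMap.isOpen_setOfPred_mapsTo hK isOpen_interior).preimage AutM.continuous_toCM
  have hS1 : (1 : AutM E X) ∈ S := by
    rw [hS]
    exact ⟨fun x _ y hy => h5 x hy, fun y hy => hKL hy⟩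
  -- consequences
  have hlim : ∀ U : Ultrafilter (AutM E X), S ∈ U → ∀ x ∈ L, ∃ a, Lm (U : Filter (AutM E X)) x a := by
    intro U hU x hx
    obtain ⟨y, hy, hxy⟩ := mem_iUnion₂.1 (ht hx)
    refine h6 y U ?_ x hxy
    filter_upwards [hU] with g hg
    rw [hS] at hg
    exact (hg.1 y hy).mono_left subset_closure
  have hKL' : ∀ U : Ultrafilter (AutM E X), S ∈ U →
      ∀ᶠ g : AutM E X in (U : Filter (AutM E X)), MapsTo g K L := by
    intro U hU
    filter_upwards [hU] with g hg
    rw [hS] at hg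
    exact hg.2.mono_right interior_subset
  -- convergence of the ultrafilters
  have hconv : ∀ U : Ultrafilter (AutM E X), S ∈ U → (fun g : AutM E X => g⁻¹) ⁻¹' S ∈ U →
      (G : Set (AutM E X)) ∈ U → ∃ f : AutM E X, (U : Filter (AutM E X)) ≤ 𝓝 f := by
    intro U hU hU' hUG
    have hV : S ∈ U.map fun g => g⁻¹ := hU'
    have hVG : (G : Set (AutM E X)) ∈ U.map fun g => g⁻¹ := by
      have h7 : (fun g : AutM E X => g⁻¹) ⁻¹' (G : Set (AutM E X)) ∈ U := by
        filter_upwards [hUG] with g hg
        exact G.inv_mem hg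
      exact h7
    have hVm : ((U.map fun g => g⁻¹ : Ultrafilter (AutM E X)) : Filter (AutM E X)) =
        (U : Filter (AutM E X)).map fun g => g⁻¹ := Ultrafilter.coe_map _ _
    have hVV : ((U.map fun g => g⁻¹ : Ultrafilter (AutM E X)) : Filter (AutM E X)).map
        (fun g => g⁻¹) = (U : Filter (AutM E X)) := by
      rw [hVm, Filter.map_map]
      have h7 : (fun g : AutM E X => g⁻¹) ∘ (fun g => g⁻¹) = id := by
        funext g
        exact inv_inv g
      rw [h7, Filter.map_id]
    have a1 := loc_left hcl htr hK hne hW hKW hP hL (hKL.trans interior_subset)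
      (U := U) (le_principal_iff.2 hUG) (hlim U hU) (by rw [← hVm]; exact hlim _ hV) (hKL' U hU)
    have a2 := loc_left hcl htr hK hne hW hKW hP hL (hKL.trans interior_subset)
      (U := U.map fun g => g⁻¹) (le_principal_iff.2 hVG) (hlim _ hV)
      (by rw [hVV]; exact hlim U hU) (hKL' _ hV)
    refine converge a1 ?_
    rw [hVm, Filter.prod_map_map_eq', tendsto_map'_iff] at a2
    have a3 := a2.inv
    rw [inv_one] at a3
    refine a3.congr fun q => ?_
    simp only [Function.comp, Prod.map, mul_inv_rev, inv_inv]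
  -- a compact neighbourhood
  have hT : S ∩ (fun g : AutM E X => g⁻¹) ⁻¹' S ∈ 𝓝 (1 : AutM E X) := by
    refine inter_mem (hSo.mem_nhds hS1) ?_
    refine continuous_inv.continuousAt.preimage_mem_nhds ?_
    rw [inv_one]
    exact hSo.mem_nhds hS1
  obtain ⟨C, hC, hCc, hCS⟩ := exists_mem_nhds_isClosed_subset hT
  have hCG : IsCompact (C ∩ G) := by
    rw [isCompact_iff_ultrafilter_le_nhds]
    intro U hU
    have hU1 : C ∩ G ∈ U := le_principal_iff.1 hU
    have hU2 : C ∈ U := mem_of_superset hU1 inter_subset_left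
    have hU3 : (G : Set (AutM E X)) ∈ U := mem_of_superset hU1 inter_subset_right
    obtain ⟨f, hf⟩ := hconv U (mem_of_superset hU2 fun g hg => (hCS hg).1)
      (mem_of_superset hU2 fun g hg => (hCS hg).2) hU3
    refine ⟨f, ?_, hf⟩
    exact (hCc.inter hcl).mem_of_tendsto (f := id) (b := (U : Filter (AutM E X))) hf hU1
  have hCG' : IsCompact ((Subtype.val : G → AutM E X) ⁻¹' (C ∩ G)) :=
    hcl.isClosedEmbedding_subtypeVal.isCompact_preimage hCG
  refine hCG'.locallyCompactSpace_of_mem_nhds_of_group (x := 1) ?_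
  have h7 : (Subtype.val : G → AutM E X) ⁻¹' C ∈ 𝓝 (1 : G) :=
    continuous_subtype_val.continuousAt.preimage_mem_nhds (by simpa using hC)
  exact mem_of_superset h7 fun g hg => mem_inter hg g.2

end

end Pool.Agent.PSC
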