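import Pool.Agent.PSC.Disc

/-!
# PSC-Mon: normal families of automorphisms, in terms of ultrafilters
-/

set_option autoImplicit false

open Set Topology Filter Metric
open scoped Manifold

namespace Pool.Agent.PSC

open Pool.Agent.ISY

section

variable {E X : Type} [NormedAddCommGroup E] [NormedSpace ℂ E] [TopologicalSpace X]
  [ChartedSpace E X] [IsManifold 𝓘(ℂ, E) (⊤ : WithTop ℕ∞) X]

/-- Montel's theorem for automorphisms: each point has neighbourhoods `O'` and `O` such that an
ultrafilter of automorphisms which map `O'` into `O` converges continuously at all points of `O'` -/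
theorem exists_mon [T2Space X] [FiniteDimensional ℂ E] (x₀ : X) :
    ∃ O' O : Set X, IsOpen O' ∧ x₀ ∈ O' ∧ IsCompact (closure O') ∧ IsOpen O ∧ closure O' ⊆ O ∧
      ∀ U : Ultrafilter (AutM E X), (∀ᶠ g : AutM E X in (U : Filter (AutM E X)), MapsTo g O' O) →
        ∀ y ∈ O', ∃ a, Lm (U : Filter (AutM E X)) y a := by
  have : ProperSpace E := FiniteDimensional.proper ℂ E
  obtain ⟨e, he⟩ : ∃ e, e = chartAt E x₀ := ⟨_, rfl⟩
  have hxs : x₀ ∈ e.source := by rw [he]; exact mem_chart_source E x₀
  obtain ⟨R₀, hR₀, hR₀t⟩ := Metric.isOpen_iff.1 e.open_target (e x₀) (e.map_source hxs)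
  obtain ⟨R, hR⟩ : ∃ R : ℝ, R = R₀ / 2 := ⟨_, rfl⟩
  have hR0 : 0 < R := by rw [hR]; positivity
  have hRt : closedBall (e x₀) R ⊆ e.target :=
    (closedBall_subset_ball (by rw [hR]; linarith)).trans hR₀t
  obtain ⟨s, hs⟩ : ∃ s : ℝ, s = R / 2 := ⟨_, rfl⟩
  have hs0 : 0 < s := by rw [hs]; positivity
  have hsR : s < R := by rw [hs]; linarith
  have hO'c : IsCompact (e.symm '' closedBall (e x₀) s) :=
    (isCompact_closedBall _ _).image_of_continuousOn
      (e.continuousOn_symm.mono ((closedBall_subset_closedBall hsR.le).trans hRt))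
  have hOc : IsCompact (e.symm '' closedBall (e x₀) R) :=
    (isCompact_closedBall _ _).image_of_continuousOn (e.continuousOn_symm.mono hRt)
  have hcl : closure (e.source ∩ e ⁻¹' ball (e x₀) s) ⊆ e.symm '' closedBall (e x₀) s := by
    refine closure_minimal ?_ hO'c.isClosed
    rintro x ⟨hx1, hx2⟩
    exact ⟨e x, ball_subset_closedBall hx2, e.left_inv hx1⟩
  refine ⟨e.source ∩ e ⁻¹' ball (e x₀) s, e.source ∩ e ⁻¹' ball (e x₀) R,
    e.isOpen_inter_preimage isOpen_ball, ⟨hxs, mem_ball_self hs0⟩,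
    hO'c.of_isClosed_subset isClosed_closure hcl, e.isOpen_inter_preimage isOpen_ball, ?_, ?_⟩
  · intro x hx
    obtain ⟨y, hy, rfl⟩ := hcl hx
    have hyt : y ∈ e.target := hRt (closedBall_subset_closedBall hsR.le hy)
    refine ⟨e.map_target hyt, ?_⟩
    rw [mem_preimage, e.right_inv hyt]
    exact closedBall_subset_ball hsR hy
  · intro U hU y hy
    obtain ⟨hys, hyb⟩ := hy
    obtain ⟨c, hc⟩ : ∃ c, c = e y := ⟨_, rfl⟩
    rw [mem_preimage, ← hc] at hyb
    have hcy : e.symm c = y := by rw [hc]; exact e.left_inv hys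
    -- the limit of `g y`
    obtain ⟨a, ha, hUa⟩ := isCompact_iff_ultrafilter_le_nhds.1 hOc (U.map fun g => g y) (by
      rw [Ultrafilter.coe_map, le_principal_iff, mem_map]
      filter_upwards [hU] with g hg
      have h1 := hg ⟨hys, (by rw [mem_preimage, ← hc]; exact hyb)⟩
      exact ⟨e (g y), ball_subset_closedBall h1.2, e.left_inv h1.1⟩)
    rw [Ultrafilter.coe_map] at hUa
    have hat : Tendsto (fun g : AutM E X => g y) (U : Filter (AutM E X)) (𝓝 a) := hUa
    have has : a ∈ e.source := by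
      obtain ⟨b, hb, rfl⟩ := ha
      exact e.map_target (hRt hb)
    refine ⟨a, ?_⟩
    obtain ⟨d, hd⟩ : ∃ d : ℝ, d = s - dist c (e x₀) := ⟨_, rfl⟩
    have hd0 : 0 < d := by rw [hd, sub_pos]; exact hyb
    have hdb : ball c d ⊆ ball (e x₀) s := ball_subset_ball' (by rw [hd]; linarith)
    -- the Lipschitz estimate
    have hLip : ∀ g : AutM E X, MapsTo g (e.source ∩ e ⁻¹' ball (e x₀) s)
        (e.source ∩ e ⁻¹' ball (e x₀) R) → ∀ z ∈ ball c d,
        dist (e (g (e.symm z))) (e (g (e.symm c))) ≤ 2 * R / d * dist z c := by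
      intro g hg z hz
      have h1 : ∀ w ∈ ball c d, g (e.symm w) ∈ e.source ∧ e (g (e.symm w)) ∈ ball (e x₀) R := by
        intro w hw
        have hwt : w ∈ e.target :=
          hRt (closedBall_subset_closedBall hsR.le (ball_subset_closedBall (hdb hw)))
        refine hg ⟨e.map_target hwt, ?_⟩
        rw [mem_preimage, e.right_inv hwt]
        exact hdb hw
      refine Complex.dist_le_div_mul_dist_of_mapsTo_ball (f := fun w => e (g (e.symm w)))
        (c := c) (z := z) (R₁ := d) (R₂ := 2 * R) ?_ ?_ hz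
      · intro w hw
        have hwt : w ∈ e.target :=
          hRt (closedBall_subset_closedBall hsR.le (ball_subset_closedBall (hdb hw)))
        have h2 : DifferentiableAt ℂ (fun w => e (g (e.symm w))) w := by
          rw [he]
          refine differentiableAt_chart g ?_ ?_
          · rwa [he] at hwt
          · have h3 := (h1 w hw).1
            rwa [he] at h3
        exact h2.differentiableWithinAt
      · intro w hw
        have h3 := (h1 w hw).2
        have h4 := (h1 c (mem_ball_self hd0)).2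
        rw [mem_ball] at h3 h4
        rw [mem_closedBall]
        have h5 := dist_triangle_right (e (g (e.symm w))) (e (g (e.symm c))) (e x₀)
        linarith
    -- the convergence
    unfold Lm
    rw [tendsto_iff_forall_eventually_mem]
    intro O hO
    have h2 : e.symm ⁻¹' O ∈ 𝓝 (e a) := by
      refine (e.continuousAt_symm (e.map_source has)).preimage_mem_nhds ?_
      rwa [e.left_inv has]
    obtain ⟨η, hη, hηO⟩ := Metric.mem_nhds_iff.1 h2
    obtain ⟨τ, hτ⟩ : ∃ τ : ℝ, τ = min d (η / 2 / (2 * R / d)) := ⟨_, rfl⟩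
    have hLp : 0 < 2 * R / d := by positivity
    have hτ0 : 0 < τ := by rw [hτ]; exact lt_min hd0 (by positivity)
    have h3 : ∀ᶠ g in (U : Filter (AutM E X)), g y ∈ e.source ∩ e ⁻¹' ball (e a) (η / 2) :=
      hat.eventually ((e.isOpen_inter_preimage isOpen_ball).mem_nhds
        ⟨has, mem_ball_self (by positivity)⟩)
    have h4 : e.source ∩ e ⁻¹' ball c τ ∈ 𝓝 y :=
      (e.isOpen_inter_preimage isOpen_ball).mem_nhds ⟨hys, by
        rw [mem_preimage, ← hc]; exact mem_ball_self hτ0⟩
    refine mem_prod_iff.2 ⟨_, inter_mem hU h3, _, h4, ?_⟩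
    rintro ⟨g, z⟩ ⟨⟨hg1, hg2⟩, hzs, hzb⟩
    have hzτ : dist (e z) c < τ := hzb
    have hzd : e z ∈ ball c d := by
      rw [mem_ball]; exact hzτ.trans_le (by rw [hτ]; exact min_le_left _ _)
    have h5 := hLip g hg1 (e z) hzd
    rw [e.left_inv hzs, hcy] at h5
    have h6 : 2 * R / d * dist (e z) c ≤ η / 2 := by
      have h7 : dist (e z) c ≤ η / 2 / (2 * R / d) := hzτ.le.trans (by rw [hτ]; exact min_le_right _ _)
      calc 2 * R / d * dist (e z) c ≤ 2 * R / d * (η / 2 / (2 * R / d)) :=
            mul_le_mul_of_nonneg_left h7 hLp.le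
        _ = η / 2 := by field_simp
    have h7 : dist (e (g y)) (e a) < η / 2 := hg2.2
    have h8 : e (g z) ∈ ball (e a) η := by
      rw [mem_ball]
      have h9 := dist_triangle (e (g z)) (e (g y)) (e a)
      linarith
    have h9 : g z ∈ e.source := by
      have h10 := hg1 (x := z) ⟨hzs, hdb hzd⟩
      exact h10.1
    have h10 := hηO h8
    rwa [mem_preimage, e.left_inv h9] at h10

end

end Pool.Agent.PSC
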