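import Pool.Agent.PSC.Disc

/-!
# PSC-Pc: on a pseudoconcave manifold convergence to the identity on the closure of `Y` spreads
-/

set_option autoImplicit false

open Set Topology Filter Metric
open scoped Manifold

namespace Pool.Agent.PSC

open Pool.Agent.ISY

section

variable {E X : Type} [NormedAddCommGroup E] [NormedSpace ℂ E] [TopologicalSpace X]
  [ChartedSpace E X]

/-- closeness in the chart, eventually, on the compact set -/
private theorem pc_ev {l : Filter (AutM E X)} {A : Set X} (hA : IsClosed A) (hl : Near l A)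
    {p : X} {C : Set E} (hC : IsCompact C) (hCt : C ⊆ (chartAt E p).target) {ε : ℝ} (hε : 0 < ε) :
    ∀ᶠ g in l, ∀ y ∈ C, (chartAt E p).symm y ∈ A →
      g ((chartAt E p).symm y) ∈ (chartAt E p).source ∧
        ‖chartAt E p (g ((chartAt E p).symm y)) - y‖ ≤ ε := by
  obtain ⟨e, he⟩ : ∃ e, e = chartAt E p := ⟨_, rfl⟩
  rw [← he] at hCt ⊢
  have h1 : IsCompact (C ∩ e.symm ⁻¹' A) := by
    have h2 : IsClosed (C ∩ e.symm ⁻¹' A) :=
      (e.continuousOn_symm.mono hCt).preimage_isClosed_of_isClosed hC.isClosed hA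
    exact hC.of_isClosed_subset h2 inter_subset_left
  have h2 : IsCompact (e.symm '' (C ∩ e.symm ⁻¹' A)) :=
    h1.image_of_continuousOn (e.continuousOn_symm.mono (inter_subset_left.trans hCt))
  have h3 := hl.eventually_forall h2 (by rintro _ ⟨y, hy, rfl⟩; exact hy.2)
    (P := fun x' x => x' ∈ e.source ∧ ‖e x' - e x‖ ≤ ε) (by
      rintro _ ⟨y, hy, rfl⟩
      have hs : e.symm y ∈ e.source := e.map_target (hCt hy.1)
      have h4 : ContinuousAt (fun z : X × X => e z.1 - e z.2) (e.symm y, e.symm y) := by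
        refine ContinuousAt.sub ?_ ?_
        · exact ContinuousAt.comp (f := fun z : X × X => z.1) (g := e) (e.continuousAt hs)
            continuousAt_fst
        · exact ContinuousAt.comp (f := fun z : X × X => z.2) (g := e) (e.continuousAt hs)
            continuousAt_snd
      have h5 : ∀ᶠ z : X × X in 𝓝 (e.symm y, e.symm y), e z.1 - e z.2 ∈ ball (0 : E) ε := by
        refine h4.eventually (isOpen_ball.mem_nhds ?_)
        simp only [sub_self]
        exact mem_ball_self hε
      have h6 : ∀ᶠ z : X × X in 𝓝 (e.symm y, e.symm y), z.1 ∈ e.source :=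
        continuousAt_fst.eventually (e.open_source.mem_nhds hs)
      filter_upwards [h5, h6] with z hz1 hz2
      rw [mem_ball, dist_zero_right] at hz1
      exact ⟨hz2, hz1.le⟩)
  filter_upwards [h3] with g hg y hy hyA
  have h4 := hg (e.symm y) ⟨y, ⟨hy, hyA⟩, rfl⟩
  rw [e.right_inv (hCt hy)] at h4
  exact h4

variable [IsManifold 𝓘(ℂ, E) (⊤ : WithTop ℕ∞) X]

/-- on a pseudoconcave manifold convergence to the identity on the closure of `Y` spreads to an open
neighbourhood of it -/
theorem spreads_of_pseudoconcave [T2Space X] [FiniteDimensional ℂ E] {Y : Set X} (hY : IsOpen Y)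
    (h : ∀ p ∈ frontier Y, ∃ φ : ℂ → X,
      ContMDiffOn 𝓘(ℂ, ℂ) 𝓘(ℂ, E) (⊤ : WithTop ℕ∞) φ (Metric.ball (0 : ℂ) 1) ∧ φ 0 = p ∧
        ∀ ζ ∈ Metric.ball (0 : ℂ) 1, ζ ≠ 0 → φ ζ ∈ Y) :
    ∃ W : Set X, IsOpen W ∧ closure Y ⊆ W ∧
      ∀ l : Filter (AutM E X), Near l (closure Y) → Near l W := by
  have h1 : ∀ p : X, p ∈ closure Y → ∃ W : Set X, IsOpen W ∧ p ∈ W ∧
      ∀ l : Filter (AutM E X), Near l (closure Y) → Near l W := by
    intro p hp
    by_cases hpY : p ∈ Y
    · refine ⟨Y, hY, hpY, fun l hl => ?_⟩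
      exact hl.mono le_rfl subset_closure
    · have hpf : p ∈ frontier Y := ⟨hp, by rwa [hY.interior_eq]⟩
      obtain ⟨φ, hφ, h0, hφY⟩ := h p hpf
      obtain ⟨δ, hδ, ρ, hρ, C, hC, hCt, hbt, hd⟩ := disc hY hp hφ h0 hφY
      refine ⟨(chartAt E p).source ∩ (chartAt E p) ⁻¹' ball (chartAt E p p) δ,
        (chartAt E p).isOpen_inter_preimage isOpen_ball,
        ⟨mem_chart_source E p, mem_ball_self hδ⟩, fun l hl => ?_⟩
      rw [near_iff_of_isOpen ((chartAt E p).isOpen_inter_preimage isOpen_ball)]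
      rintro x ⟨hxs, hxb⟩
      rw [tendsto_iff_forall_eventually_mem]
      intro O hO
      -- a small ball in the chart
      have h2 : (chartAt E p).symm ⁻¹' O ∈ 𝓝 (chartAt E p x) := by
        refine ((chartAt E p).continuousAt_symm ((chartAt E p).map_source hxs)).preimage_mem_nhds ?_
        rwa [(chartAt E p).left_inv hxs]
      obtain ⟨η, hη, hηO⟩ := Metric.mem_nhds_iff.1 h2
      obtain ⟨ε, hε⟩ : ∃ ε : ℝ, ε = min (η / 2) (ρ / 2) := ⟨_, rfl⟩
      have hε0 : 0 < ε := by rw [hε]; positivity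
      have hερ : ε < ρ := by
        rw [hε]; exact (min_le_right _ _).trans_lt (by linarith)
      have hεη : ε ≤ η / 2 := by rw [hε]; exact min_le_left _ _
      have h3 := pc_ev isClosed_closure hl hC hCt hε0
      have h4 : (chartAt E p).source ∩ (chartAt E p) ⁻¹' (ball (chartAt E p p) δ ∩
          ball (chartAt E p x) (η / 2)) ∈ 𝓝 x :=
        ((chartAt E p).isOpen_inter_preimage (isOpen_ball.inter isOpen_ball)).mem_nhds
          ⟨hxs, hxb, mem_ball_self (by positivity)⟩
      refine mem_prod_iff.2 ⟨_, h3, _, h4, ?_⟩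
      rintro ⟨g, y⟩ ⟨hg, hys, hyb, hyη⟩
      have h5 := hd g ε hε0 hερ hg (chartAt E p y) hyb
      rw [(chartAt E p).left_inv hys] at h5
      have h6 : chartAt E p (g y) ∈ ball (chartAt E p x) η := by
        rw [mem_ball]
        calc dist (chartAt E p (g y)) (chartAt E p x)
            ≤ dist (chartAt E p (g y)) (chartAt E p y) + dist (chartAt E p y) (chartAt E p x) :=
              dist_triangle _ _ _
          _ < η / 2 + η / 2 := by
              refine add_lt_add_of_le_of_lt ?_ hyη
              rw [dist_eq_norm]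
              exact h5.2.trans hεη
          _ = η := by ring
      have h7 := hηO h6
      rwa [mem_preimage, (chartAt E p).left_inv h5.1] at h7
  choose! W hW1 hW2 hW3 using h1
  refine ⟨⋃ p ∈ closure Y, W p, isOpen_biUnion hW1, fun p hp => mem_biUnion hp (hW2 p hp), ?_⟩
  intro l hl
  rw [near_iff_of_isOpen (isOpen_biUnion hW1)]
  intro x hx
  obtain ⟨p, hp, hxp⟩ := mem_iUnion₂.1 hx
  exact (near_iff_of_isOpen (hW1 p hp)).1 (hW3 p hp l hl) x hxp

end

end Pool.Agent.PSC
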