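import Pool.Agent.PSC.Loc
import Pool.Agent.PSC.Pc

/-!
# PSC-Seq: sequences and filters; a locally compact group propagates; the main theorem
-/

set_option autoImplicit false

open Set Topology Filter
open scoped Manifold

namespace Pool.Agent.PSC

open Pool.Agent.ISY

section

variable {E X : Type} [NormedAddCommGroup E] [NormedSpace ℂ E] [TopologicalSpace X]
  [ChartedSpace E X]

/-- the filter of convergence to the identity on `A` -/
private def NN (E : Type) {X : Type} [NormedAddCommGroup E] [NormedSpace ℂ E] [TopologicalSpace X]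
    [ChartedSpace E X] (A : Set X) : Filter (AutM E X) :=
  comap (fun g : AutM E X => g.toCM.restrict A) (𝓝 ((ContinuousMap.id X).restrict A))

private theorem near_iff_le {A : Set X} [LocallyCompactSpace A] {l : Filter (AutM E X)} :
    Near l A ↔ l ≤ NN E A := by
  have h := tendsto_restrict_iff (l := l) (fun g : AutM E X => g) A
  rw [show l.map (fun g : AutM E X => g) = l from Filter.map_id] at h
  rw [← h, tendsto_iff_comap]
  exact Iff.rfl

private theorem lc_compact [T2Space X] {K : Set X} (hK : IsCompact K) : LocallyCompactSpace K := by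
  have : CompactSpace K := isCompact_iff_compactSpace.1 hK
  infer_instance

private theorem NN_anti [T2Space X] {K K' : Set X} (hK : IsCompact K) (hK' : IsCompact K')
    (h : K ⊆ K') : NN E K' ≤ NN E K := by
  have i1 := lc_compact hK
  have i2 := lc_compact hK'
  rw [← near_iff_le]
  exact (near_iff_le.2 le_rfl).mono le_rfl h

/-- a neighbourhood of `1` is given by a compact set -/
private theorem exists_NN [T2Space X] [LocallyCompactSpace X] {V : Set (AutM E X)}
    (hV : V ∈ 𝓝 (1 : AutM E X)) : ∃ K : Set X, IsCompact K ∧ V ∈ NN E K := by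
  have h1 : (⨅ K ∈ {K : Set X | IsCompact K}, NN E K) ≤ 𝓝 (1 : AutM E X) := by
    rw [le_nhds_iff]
    intro x
    obtain ⟨B, hBc, hB⟩ := exists_compact_mem_nhds x
    have i1 := lc_compact hBc
    have h2 : Near (⨅ K ∈ {K : Set X | IsCompact K}, NN E K) B :=
      near_iff_le.2 (iInf₂_le B hBc)
    have h3 := h2 x (mem_of_mem_nhds hB)
    rw [nhdsWithin_eq_nhds.2 hB] at h3
    exact h3
  have h2 := h1 hV
  rw [mem_biInf_of_directed ?_ ⟨∅, isCompact_empty⟩] at h2
  · obtain ⟨K, hK, h3⟩ := h2
    exact ⟨K, hK, h3⟩
  · intro K hK K' hK'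
    exact ⟨K ∪ K', IsCompact.union hK hK', NN_anti hK (IsCompact.union hK hK') subset_union_left,
      NN_anti hK' (IsCompact.union hK hK') subset_union_right⟩

/-- propagation for sequences implies propagation for filters -/
theorem near_of_propagates [T2Space X] [SecondCountableTopology X] [LocallyCompactSpace X]
    {G : Subgroup (AutM E X)} {K W : Set X} (hK : IsCompact K) (hW : IsOpen W)
    (hP : Propagates G K W) {l : Filter (AutM E X)} (hl : l ≤ 𝓟 (G : Set (AutM E X)))
    (h : Near l K) : Near l W := by
  have i1 := lc_compact hK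
  have i2 : LocallyCompactSpace W := hW.locallyCompactSpace
  have h1 : l ≤ NN E K ⊓ 𝓟 (G : Set (AutM E X)) := le_inf (near_iff_le.1 h) hl
  have h2 : Tendsto (fun g : AutM E X => g.toCM.restrict W) (NN E K ⊓ 𝓟 (G : Set (AutM E X)))
      (𝓝 ((ContinuousMap.id X).restrict W)) := by
    have hcg : (NN E K ⊓ 𝓟 (G : Set (AutM E X))).IsCountablyGenerated := by
      have h3 : (NN E K).IsCountablyGenerated := by
        unfold NN
        infer_instance
      infer_instance
    refine tendsto_of_seq_tendsto fun u hu => ?_
    classical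
    obtain ⟨v, hv⟩ : ∃ v : ℕ → AutM E X, v = fun n => if u n ∈ G then u n else 1 := ⟨_, rfl⟩
    have hvG : ∀ n, v n ∈ G := by
      intro n
      rw [hv]
      by_cases hn : u n ∈ G
      · simp only [hn, if_true]
      · simp only [hn, if_false]
        exact G.one_mem
    have hev : ∀ᶠ n in atTop, u n = v n := by
      have h3 : ∀ᶠ n in atTop, u n ∈ (G : Set (AutM E X)) :=
        (tendsto_inf.1 hu).2.eventually (mem_principal_self _)
      filter_upwards [h3] with n hn
      rw [hv]
      have h4 : u n ∈ G := hn
      simp only [h4, if_true]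
    have h3 : ToId v K := by
      have h4 : Tendsto (fun n => (u n).toCM.restrict K) atTop
          (𝓝 ((ContinuousMap.id X).restrict K)) := by
        have h5 := (tendsto_inf.1 hu).1
        unfold NN at h5
        rw [tendsto_comap_iff] at h5
        exact h5
      refine h4.congr' ?_
      filter_upwards [hev] with n hn
      rw [hn]
    have h4 : ToId v W := hP v hvG h3
    refine Tendsto.congr' ?_ h4
    filter_upwards [hev] with n hn
    simp only [Function.comp]
    rw [hn]
  have h3 : Near (NN E K ⊓ 𝓟 (G : Set (AutM E X))) W := by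
    rw [near_iff_le]
    exact tendsto_iff_comap.1 h2
  exact h3.mono h1 subset_rfl

end

section

variable {E X : Type} [NormedAddCommGroup E] [NormedSpace ℂ E] [FiniteDimensional ℂ E]
  [TopologicalSpace X] [T2Space X] [SecondCountableTopology X] [ConnectedSpace X]
  [ChartedSpace E X] [IsManifold 𝓘(ℂ, E) (⊤ : WithTop ℕ∞) X]

/-- a locally compact group of automorphisms propagates -/
theorem exists_propagates {G : Subgroup (AutM E X)} (hG : LocallyCompactSpace G) :
    ∃ K W : Set X, IsCompact K ∧ K.Nonempty ∧ IsOpen W ∧ K ⊆ W ∧ Propagates G K W := by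
  have i1 := isTopologicalGroup_autM E X
  have i4 := t2Space_autM E X
  have : LocallyCompactSpace X := Manifold.locallyCompact_of_finiteDimensional 𝓘(ℂ, E)
  obtain ⟨C, hCc, hC⟩ := exists_compact_mem_nhds (1 : G)
  obtain ⟨V, hV, hVC⟩ := (mem_nhds_subtype (G : Set (AutM E X)) 1 C).1 hC
  obtain ⟨K₀, hK₀, hVK⟩ := exists_NN (E := E) hV
  obtain ⟨x₀⟩ : Nonempty X := inferInstance
  obtain ⟨B, hBc, hB⟩ := exists_compact_mem_nhds x₀
  have hKB : IsCompact (K₀ ∪ B) := hK₀.union hBc
  refine ⟨K₀ ∪ B, univ, hKB, ⟨x₀, Or.inr (mem_of_mem_nhds hB)⟩, isOpen_univ, subset_univ _, ?_⟩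
  intro g hg hgK
  have i5 := lc_compact hKB
  have hn : Near (map g atTop) (K₀ ∪ B) := (tendsto_restrict_iff g _).1 hgK
  have hgV : ∀ᶠ n in atTop, g n ∈ V := by
    have h1 : map g atTop ≤ NN E K₀ := (near_iff_le.1 hn).trans (NN_anti hK₀ hKB subset_union_left)
    exact h1 hVK
  have h1 : Tendsto g atTop (𝓝 1) := by
    rw [tendsto_iff_ultrafilter]
    intro U hU
    have hUV : ∀ᶠ n in (U : Filter ℕ), g n ∈ V := hU hgV
    obtain ⟨h, hhC, hh⟩ := isCompact_iff_ultrafilter_le_nhds.1 hCc
      (U.map fun n => (⟨g n, hg n⟩ : G)) (by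
        rw [Ultrafilter.coe_map, le_principal_iff, mem_map]
        filter_upwards [hUV] with n hn
        exact hVC hn)
    rw [Ultrafilter.coe_map] at hh
    have h2 : Tendsto g (U : Filter ℕ) (𝓝 (h : AutM E X)) := by
      have h3 := (continuous_subtype_val.tendsto h).comp
        (show Tendsto (fun n => (⟨g n, hg n⟩ : G)) (U : Filter ℕ) (𝓝 h) from hh)
      exact h3
    have h3 : (h : AutM E X) = 1 := by
      refine eq_one_of_eqOn E X h.1 (interior B) isOpen_interior
        ⟨x₀, mem_interior_iff_mem_nhds.2 hB⟩ ?_
      intro x hx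
      have hxB : x ∈ B := interior_subset hx
      have h4 : Tendsto (fun n => g n x) (U : Filter ℕ) (𝓝 (h.1 x)) := by
        have h5 : Lm (map g (U : Filter ℕ)) x (h.1 x) := le_nhds_iff.1 h2 x
        have h6 := h5.tendsto
        rw [tendsto_map'_iff] at h6
        exact h6
      have h5 : Tendsto (fun n => g n x) atTop (𝓝 x) := by
        have h6 := hn x (Or.inr hxB)
        have h7 : Tendsto (fun n => (g n, x)) atTop (map g atTop ×ˢ 𝓝[K₀ ∪ B] x) :=
          tendsto_map.prodMk (tendsto_const_pure.mono_right (pure_le_nhdsWithin (Or.inr hxB)))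
        exact Tendsto.comp (g := fun q : AutM E X × X => q.1 q.2) h6 h7
      exact tendsto_nhds_unique h4 (h5.mono_left hU)
    rw [h3] at h2
    exact h2
  have h2 := ContinuousMap.tendsto_compactOpen_restrict
    ((AutM.continuous_toCM.tendsto (1 : AutM E X)).comp h1) univ
  exact h2

/-- a closed transitive group which is locally compact is not totally disconnected -/
theorem not_totallyDisconnected [Nontrivial E] {G : Subgroup (AutM E X)}
    (hcl : IsClosed (G : Set (AutM E X))) (htr : Transitive G) (hG : LocallyCompactSpace G) :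
    ¬ IsTotallyDisconnected (G : Set (AutM E X)) := by
  intro htd
  have i1 := isTopologicalGroup_autM E X
  have i3 := continuousSMul_autM E X
  have i4 := t2Space_autM E X
  obtain ⟨p⟩ : Nonempty X := inferInstance
  have hc := criterion hcl htr htd p
  have hle : isot G p ≤ G := fun g hg => hg.1
  have hiso : IsClosed ((isot G p : Subgroup (AutM E X)) : Set (AutM E X)) := by
    have h1 : ((isot G p : Subgroup (AutM E X)) : Set (AutM E X)) =
        (G : Set (AutM E X)) ∩ {g : AutM E X | g • p = p} := by
      ext g
      exact Iff.rfl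
    rw [h1]
    exact hcl.inter (isClosed_eq (continuous_id.smul continuous_const) continuous_const)
  have hlc : LocallyCompactSpace (isot G p) := by
    have h1 : IsClosedEmbedding (Subgroup.inclusion hle) := by
      refine ⟨?_, ?_⟩
      · exact (IsEmbedding.inclusion (show ((isot G p : Subgroup (AutM E X)) :
          Set (AutM E X)) ⊆ (G : Set (AutM E X)) from hle))
      · have h2 : range (Subgroup.inclusion hle) =
            (Subtype.val : G → AutM E X) ⁻¹' ((isot G p : Subgroup (AutM E X)) :
              Set (AutM E X)) := by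
          ext g
          constructor
          · rintro ⟨h, rfl⟩
            exact h.2
          · intro hg
            exact ⟨⟨g.1, hg⟩, rfl⟩
        rw [h2]
        exact hiso.preimage continuous_subtype_val
    exact h1.locallyCompactSpace
  have h1 := hc.normal (isot G p) le_rfl
    (fun h hh l hl => (isot G p).mul_mem ((isot G p).mul_mem hh hl) ((isot G p).inv_mem hh)) hlc
  apply hc.uncountable
  rw [h1]
  exact countable_singleton 1

end

end Pool.Agent.PSC
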